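import Pool.Agent.CBG.StmtsA

/-!
# Squad CBG, row EXP: from the torus to real parameters
-/

set_option autoImplicit false
set_option maxSynthPendingDepth 3

open scoped Manifold ContDiff Topology
open Set Filter MeasureTheory

namespace Pool.Agent.CBG.H34

open Pool.Agent.CBG

theorem exp_inj (k l : ℕ) (h : Circle.exp (2 * Real.pi * (1 / ((k : ℝ) + 1))) =
    Circle.exp (2 * Real.pi * (1 / ((l : ℝ) + 1)))) : k = l := by
  rw [Circle.exp_eq_exp] at h
  obtain ⟨m, hm⟩ := h
  have hpi : (2 * Real.pi) ≠ 0 := by positivity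
  have h1 : 1 / ((k : ℝ) + 1) = 1 / ((l : ℝ) + 1) + m := by
    apply mul_left_cancel₀ hpi
    rw [hm]
    ring
  have hk0 : (0 : ℝ) < (k : ℝ) + 1 := by positivity
  have hl0 : (0 : ℝ) < (l : ℝ) + 1 := by positivity
  have k1 : 0 < 1 / ((k : ℝ) + 1) := by positivity
  have l1 : 0 < 1 / ((l : ℝ) + 1) := by positivity
  have k2 : 1 / ((k : ℝ) + 1) ≤ 1 := by
    rw [div_le_one hk0]
    have : (0 : ℝ) ≤ k := Nat.cast_nonneg _
    linarith
  have l2 : 1 / ((l : ℝ) + 1) ≤ 1 := by
    rw [div_le_one hl0]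
    have : (0 : ℝ) ≤ l := Nat.cast_nonneg _
    linarith
  have m1 : (-1 : ℝ) < m := by linarith
  have m2 : (m : ℝ) < 1 := by linarith
  have m3 : m = 0 := by
    have a1 : -1 < m := by exact_mod_cast m1
    have a2 : m < 1 := by exact_mod_cast m2
    omega
  rw [m3, Int.cast_zero, add_zero, one_div, one_div, inv_inj] at h1
  have : (k : ℝ) = l := by linarith
  exact_mod_cast this

theorem exp : ExpStmt := by
  intro n E _ _ _ _ hsm hfin
  refine ⟨?_, ?_, ?_, ?_, ?_, ?_⟩
  · -- smooth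
    have h1 : ContMDiff (𝓘(ℝ, ℝ × ℝ).prod (𝓡 n)) (𝓡 1) ∞
        (fun q : (ℝ × ℝ) × E => Circle.exp (2 * Real.pi * q.1.1)) := by
      have hc : ContDiff ℝ ∞ (fun t : ℝ × ℝ => 2 * Real.pi * t.1) := by fun_prop
      exact contMDiff_circleExp.comp (hc.contMDiff.comp contMDiff_fst)
    have h2 : ContMDiff (𝓘(ℝ, ℝ × ℝ).prod (𝓡 n)) (𝓡 1) ∞
        (fun q : (ℝ × ℝ) × E => Circle.exp (2 * Real.pi * q.1.2)) := by
      have hc : ContDiff ℝ ∞ (fun t : ℝ × ℝ => 2 * Real.pi * t.2) := by fun_prop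
      exact contMDiff_circleExp.comp (hc.contMDiff.comp contMDiff_fst)
    exact hsm.comp ((h1.prodMk h2).prodMk contMDiff_snd)
  · intro p
    change (Circle.exp (2 * Real.pi * (0 : ℝ × ℝ).1), Circle.exp (2 * Real.pi * (0 : ℝ × ℝ).2)) • p
      = p
    rw [Prod.fst_zero, Prod.snd_zero, mul_zero, Circle.exp_zero]
    exact one_smul _ p
  · intro s t p
    change (Circle.exp (2 * Real.pi * (s + t).1), Circle.exp (2 * Real.pi * (s + t).2)) • p =
      (Circle.exp (2 * Real.pi * s.1), Circle.exp (2 * Real.pi * s.2)) •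
        (Circle.exp (2 * Real.pi * t.1), Circle.exp (2 * Real.pi * t.2)) • p
    rw [← mul_smul, Prod.mk_mul_mk, ← Circle.exp_add, ← Circle.exp_add, Prod.fst_add,
      Prod.snd_add, mul_add, mul_add]
  · intro p
    change (Circle.exp (2 * Real.pi * 1), Circle.exp (2 * Real.pi * 0)) • p = p
    rw [mul_one, mul_zero, Circle.exp_zero, Circle.exp_two_pi]
    exact one_smul _ p
  · intro p
    change (Circle.exp (2 * Real.pi * 0), Circle.exp (2 * Real.pi * 1)) • p = p
    rw [mul_one, mul_zero, Circle.exp_zero, Circle.exp_two_pi]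
    exact one_smul _ p
  · intro p a ha
    by_contra hne
    have hinf : ∀ F : ℕ → Circle × Circle, Function.Injective F → (∀ k, F k • p = p) → False := by
      intro F hF hFp
      exact Set.infinite_of_injective_forall_mem hF hFp (hfin p)
    by_cases h1 : a.1 = 0
    · have h2 : a.2 ≠ 0 := fun h => hne (Prod.ext h1 h)
      apply hinf (fun k : ℕ => (Circle.exp (2 * Real.pi * (((1 / ((k : ℝ) + 1)) / a.2) • a).1),
        Circle.exp (2 * Real.pi * (((1 / ((k : ℝ) + 1)) / a.2) • a).2)))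
      · intro k l hkl
        have h3 := congrArg Prod.snd hkl
        change Circle.exp (2 * Real.pi * ((1 / ((k : ℝ) + 1)) / a.2 * a.2)) =
          Circle.exp (2 * Real.pi * ((1 / ((l : ℝ) + 1)) / a.2 * a.2)) at h3
        rw [div_mul_cancel₀ _ h2, div_mul_cancel₀ _ h2] at h3
        exact exp_inj k l h3
      · intro k
        exact ha _
    · apply hinf (fun k : ℕ => (Circle.exp (2 * Real.pi * (((1 / ((k : ℝ) + 1)) / a.1) • a).1),
        Circle.exp (2 * Real.pi * (((1 / ((k : ℝ) + 1)) / a.1) • a).2)))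
      · intro k l hkl
        have h3 := congrArg Prod.fst hkl
        change Circle.exp (2 * Real.pi * ((1 / ((k : ℝ) + 1)) / a.1 * a.1)) =
          Circle.exp (2 * Real.pi * ((1 / ((l : ℝ) + 1)) / a.1 * a.1)) at h3
        rw [div_mul_cancel₀ _ h1, div_mul_cancel₀ _ h1] at h3
        exact exp_inj k l h3
      · intro k
        exact ha _

end Pool.Agent.CBG.H34
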